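import Mathlib

namespace Pool.Agent.H.MP_ff3fe0_an

open Real MeasureTheory Set Filter Topology
open scoped ContDiff

noncomputable def β (z : ℂ) : ℝ := smoothTransition (51 - 50 * ‖z‖ ^ 2)

lemma β_smooth : ContDiff ℝ ∞ β :=
  smoothTransition.contDiff.comp (contDiff_const.sub (contDiff_const.mul (contDiff_norm_sq ℝ)))

lemma β_one {z : ℂ} (h : ‖z‖ ^ 2 ≤ 1) : β z = 1 := smoothTransition.one_of_one_le (by linarith)
lemma β_zero {z : ℂ} (h : 1.02 ≤ ‖z‖ ^ 2) : β z = 0 := smoothTransition.zero_of_nonpos (by linarith)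
lemma β_nonneg (z : ℂ) : 0 ≤ β z := smoothTransition.nonneg _
lemma β_le (z : ℂ) : β z ≤ 1 := smoothTransition.le_one _

lemma β_fd {z : ℂ} (h : 2 < ‖z‖) : fderiv ℝ β z = 0 := by
  have : β =ᶠ[𝓝 z] fun _ => 0 :=
    eventually_of_mem ((isOpen_lt continuous_const continuous_norm).mem_nhds h)
      fun w (hw : 2 < ‖w‖) => β_zero (by nlinarith)
  rw [this.fderiv_eq]; simp

lemma β_bd : ∃ C : ℝ, 0 ≤ C ∧ ∀ z, ‖fderiv ℝ β z‖ ≤ C := by
  obtain ⟨C, hC⟩ := (β_smooth.continuous_fderiv (by simp)).bounded_above_of_compact_support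
    (HasCompactSupport.intro (isCompact_closedBall 0 2) fun z hz => β_fd (by simpa using hz))
  exact ⟨C, (norm_nonneg _).trans (hC 0), hC⟩

/-- The bump of scale `e` at `c`. -/
noncomputable def bump (e : ℝ) (c z : ℂ) : ℝ := β (e⁻¹ • (z - c))

lemma bump_smooth (e : ℝ) (c : ℂ) : ContDiff ℝ ∞ (bump e c) :=
  β_smooth.comp ((contDiff_id.sub contDiff_const).const_smul _)

lemma bump_nonneg (e : ℝ) (c z : ℂ) : 0 ≤ bump e c z := β_nonneg _

lemma nsq {e : ℝ} (he : 0 < e) (w : ℂ) : ‖e⁻¹ • w‖ ^ 2 = ‖w‖ ^ 2 / e ^ 2 := by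
  rw [norm_smul, norm_inv, Real.norm_eq_abs, abs_of_pos he]; ring

lemma bump_fd {e : ℝ} (c z : ℂ) :
    fderiv ℝ (bump e c) z = e⁻¹ • fderiv ℝ β (e⁻¹ • (z - c)) := by
  have h1 : HasFDerivAt (fun z : ℂ => e⁻¹ • (z - c)) (e⁻¹ • ContinuousLinearMap.id ℝ ℂ) z :=
    ((hasFDerivAt_id z).sub_const c).const_smul e⁻¹
  have h2 := ((β_smooth.differentiable (by simp) _).hasFDerivAt.comp z h1).fderiv
  rw [ContinuousLinearMap.comp_smul, ContinuousLinearMap.comp_id] at h2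
  exact h2

lemma avg (e : ℝ) (c x : ℂ) (t : ℝ) : circleAverage (bump e c) x t = (2 * π)⁻¹ *
    ∫ θ in (-π)..π, bump e c (circleMap x t (θ + Complex.arg (c - x))) := by
  rw [circleAverage_eq_integral_add (Complex.arg (c - x) - π), smul_eq_mul]
  congr 1
  have := intervalIntegral.integral_comp_sub_right (a := 0) (b := 2 * π)
    (fun θ => bump e c (circleMap x t (θ + Complex.arg (c - x)))) π
  rw [zero_sub, show 2 * π - π = π by ring] at this
  rw [← this]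
  congr 1
  ext θ
  congr 2
  ring

lemma dsq (c x : ℂ) (t θ : ℝ) : ‖circleMap x t (θ + Complex.arg (c - x)) - c‖ ^ 2 =
    (‖c - x‖ - t) ^ 2 + 2 * ‖c - x‖ * t * (1 - cos θ) := by
  have h := Complex.norm_mul_exp_arg_mul_I (c - x)
  generalize Complex.arg (c - x) = α at *
  generalize ‖c - x‖ = r at *
  have : circleMap x t (θ + α) - c = (t * Complex.exp (θ * Complex.I) - r) *
      Complex.exp (α * Complex.I) := by
    rw [circleMap, sub_mul, h, mul_assoc, ← Complex.exp_add]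
    push_cast
    ring_nf
  rw [this, norm_mul, Complex.norm_exp_ofReal_mul_I, mul_one, Complex.sq_norm, Complex.normSq_apply]
  simp [Complex.exp_ofReal_mul_I_re, Complex.exp_ofReal_mul_I_im]
  linear_combination t ^ 2 * sin_sq_add_cos_sq θ

lemma cont (e : ℝ) (c x : ℂ) (t α : ℝ) : Continuous fun θ => bump e c (circleMap x t (θ + α)) :=
  (bump_smooth e c).continuous.comp ((continuous_circleMap x t).comp (by fun_prop))

lemma avg_zero {e : ℝ} (he : 0 < e) {c x : ℂ} {t : ℝ} (ht : 0 < t) (h : 1.01 * e ≤ |‖c - x‖ - t|) :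
    circleAverage (bump e c) x t = 0 := by
  rw [avg, intervalIntegral.integral_congr (g := fun _ => 0)]
  · simp
  intro θ _
  refine β_zero ?_
  rw [nsq he, dsq, le_div_iff₀ (by positivity), ← sq_abs (‖c - x‖ - t)]
  have : 0 ≤ 2 * ‖c - x‖ * t * (1 - cos θ) := mul_nonneg (by positivity) (by linarith [cos_le_one θ])
  nlinarith

lemma avg_le {e : ℝ} (he : 0 < e) (he2 : e ≤ 0.01) {c x : ℂ} {t : ℝ} (ht : 0 < t)
    (h : 0.98 ≤ ‖c - x‖) : circleAverage (bump e c) x t ≤ 0.54 * e := by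
  by_cases h1 : 1.01 * e ≤ |‖c - x‖ - t|
  · rw [avg_zero he ht h1]; positivity
  have h2 : 0.96 ≤ t := by
    have := (abs_lt.1 (not_le.1 h1)).2
    linarith
  have h3 : 0.94 ≤ ‖c - x‖ * t := by nlinarith
  have hpi := pi_pos
  have hκ : 0.54 * π * e ≤ π := by nlinarith
  have z : ∀ θ, |θ| ≤ π → 0.54 * π * e ≤ |θ| →
      bump e c (circleMap x t (θ + Complex.arg (c - x))) = 0 := by
    intro θ h4 h5
    refine β_zero ?_
    rw [nsq he, dsq, le_div_iff₀ (by positivity)]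
    have h6 := cos_le_one_sub_mul_cos_sq h4
    have h7 : (0.54 * π * e) ^ 2 ≤ θ ^ 2 := by
      rw [← sq_abs θ]; exact pow_le_pow_left₀ (by positivity) h5 2
    have h8 : 2 * (0.54 * e) ^ 2 ≤ 2 / π ^ 2 * θ ^ 2 := by
      rw [div_mul_eq_mul_div, le_div_iff₀ (by positivity)]; nlinarith
    have h9 : 0.94 * (2 * (0.54 * e) ^ 2) ≤ ‖c - x‖ * t * (1 - cos θ) :=
      mul_le_mul h3 (by linarith) (by positivity) (by positivity)
    nlinarith [sq_nonneg (‖c - x‖ - t)]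
  have i := fun a b => (cont e c x t (Complex.arg (c - x))).intervalIntegrable (μ := volume) a b
  have hk : 0 ≤ 0.54 * π * e := by positivity
  rw [avg, ← intervalIntegral.integral_add_adjacent_intervals (i (-π) (-(0.54 * π * e)))
      (i (-(0.54 * π * e)) π),
    ← intervalIntegral.integral_add_adjacent_intervals (i (-(0.54 * π * e)) (0.54 * π * e))
      (i (0.54 * π * e) π),
    intervalIntegral.integral_congr (g := fun _ => 0) (a := -π) (b := -(0.54 * π * e)),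
    intervalIntegral.integral_congr (g := fun _ => 0) (a := 0.54 * π * e) (b := π)]
  · have := intervalIntegral.integral_mono_on (by linarith : -(0.54 * π * e) ≤ 0.54 * π * e) (i _ _)
      (intervalIntegrable_const (c := 1)) fun θ _ => β_le _
    simp only [intervalIntegral.integral_const, smul_eq_mul, mul_zero, zero_add, add_zero] at this ⊢
    rw [inv_mul_le_iff₀ (by positivity)]
    linarith
  · intro θ hθ
    rw [uIcc_of_le hκ] at hθ
    exact z θ (abs_le.2 ⟨by linarith [hθ.1], hθ.2⟩) (hθ.1.trans (le_abs_self _))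
  · intro θ hθ
    rw [uIcc_of_le (by linarith)] at hθ
    exact z θ (abs_le.2 ⟨hθ.1, by linarith [hθ.2]⟩) (le_abs.2 (Or.inr (by linarith [hθ.2])))

lemma avg_ge {e : ℝ} (he : 0 < e) (he2 : e ≤ 0.01) {c x : ℂ} {t : ℝ} (ht : 0 < t)
    (h : ‖c - x‖ ≤ 1.03) (h1 : |‖c - x‖ - t| ≤ e / 9) : 0.3 * e ≤ circleAverage (bump e c) x t := by
  have h2 : t ≤ 1.035 := by
    have := (abs_le.1 h1).1
    linarith
  have h3 : ‖c - x‖ * t ≤ 1.07 := by nlinarith [norm_nonneg (c - x)]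
  have hpi := pi_gt_three
  have i := fun a b => (cont e c x t (Complex.arg (c - x))).intervalIntegrable (μ := volume) a b
  have h4 := intervalIntegral.integral_mono_interval (by linarith : -π ≤ -(0.95 * e))
    (by linarith : -(0.95 * e) ≤ 0.95 * e) (by linarith : 0.95 * e ≤ π)
    (ae_of_all _ fun θ => bump_nonneg _ _ _) (i _ _)
  have h5 := intervalIntegral.integral_mono_on (by linarith : -(0.95 * e) ≤ 0.95 * e)
    (intervalIntegrable_const (c := 1)) (i _ _) fun θ hθ => (β_one (by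
      rw [nsq he, dsq, div_le_one (by positivity), ← sq_abs (‖c - x‖ - t)]
      have h6 := one_sub_sq_div_two_le_cos (x := θ)
      have h7 : θ ^ 2 ≤ (0.95 * e) ^ 2 := sq_le_sq' hθ.1 hθ.2
      have h8 : ‖c - x‖ * t * (1 - cos θ) ≤ 1.07 * ((0.95 * e) ^ 2 / 2) :=
        mul_le_mul h3 (by linarith) (by linarith [cos_le_one θ]) (by norm_num)
      have h9 := pow_le_pow_left₀ (abs_nonneg _) h1 2
      nlinarith)).ge
  simp only [intervalIntegral.integral_const, smul_eq_mul] at h5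
  rw [avg, le_inv_mul_iff₀ (by positivity)]
  have := pi_lt_d2
  nlinarith

lemma one_term {ι E : Type} [SeminormedAddCommGroup E] (S : Finset ι) (F : ι → E) {B : ℝ} (hB : 0 ≤ B)
    (h : ∀ c ∈ S, ‖F c‖ ≤ B) (h2 : ∀ c ∈ S, ∀ c' ∈ S, c ≠ c' → F c = 0 ∨ F c' = 0) :
    ‖∑ c ∈ S, F c‖ ≤ B := by
  by_cases h0 : ∀ c ∈ S, F c = 0
  · rw [Finset.sum_eq_zero h0, norm_zero]; exact hB
  push Not at h0
  obtain ⟨c, hc, h1⟩ := h0
  rw [Finset.sum_eq_single_of_mem c hc fun c' h3 h4 => (h2 c' h3 c hc h4).resolve_right h1]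
  exact h c hc

/-- Admissible centres. -/
def Ok (e c : ℝ) : Prop := ∃ n : ℤ, 0 ≤ n * e ∧ 8 * n * e ≤ 0.01 ∧ (c = -1 + 8 * n * e ∨ c = 1 + 8 * n * e)

lemma rsq (c : ℝ) (x : ℂ) : ‖c - x‖ ^ 2 = (c - x.re) ^ 2 + x.im ^ 2 := by
  rw [Complex.sq_norm, Complex.normSq_apply]; simp; ring

lemma rng {e c : ℝ} (h : Ok e c) {x : ℂ} (h1 : 0 ≤ x.re) (h2 : x.re ≤ 0.01) (h3 : |x.im| ≤ 0.01) :
    0.98 ≤ ‖c - x‖ ∧ ‖c - x‖ ≤ 1.03 := by
  obtain ⟨n, a, b, hc⟩ := h
  have h4 := rsq c x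
  have h5 : x.im ^ 2 ≤ 0.01 ^ 2 := by rw [← sq_abs]; exact pow_le_pow_left₀ (abs_nonneg _) h3 2
  constructor
  · refine (sq_le_sq₀ (by norm_num) (norm_nonneg _)).1 ?_
    rcases hc with rfl | rfl <;> nlinarith [sq_nonneg x.im]
  · refine (sq_le_sq₀ (norm_nonneg _) (by norm_num)).1 ?_
    rcases hc with rfl | rfl <;> nlinarith

lemma intgap {n m : ℤ} (h : n ≠ m) : (1 : ℝ) ≤ |(n : ℝ) - m| := by
  exact_mod_cast Int.one_le_abs (sub_ne_zero.2 h)

lemma sep {e c c' : ℝ} (he : 0 < e) (he2 : e ≤ 0.01) (h : Ok e c) (h' : Ok e c') (hne : c ≠ c') :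
    8 * e ≤ |c - c'| := by
  obtain ⟨n, a, b, hc⟩ := h
  obtain ⟨m, a', b', hc'⟩ := h'
  have k : n ≠ m → 8 * e ≤ |8 * n * e - 8 * m * e| := fun h => by
    rw [show 8 * n * e - 8 * m * e = 8 * e * (n - m) by ring, abs_mul, abs_of_pos (by positivity)]
    nlinarith [intgap h]
  rcases hc with rfl | rfl <;> rcases hc' with rfl | rfl
  · simpa using k fun h => hne (by rw [h])
  · exact le_abs.2 (Or.inr (by linarith))
  · exact le_abs.2 (Or.inl (by linarith))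
  · simpa using k fun h => hne (by rw [h])

lemma low {e c c' : ℝ} (he : 0 < e) (he2 : e ≤ 0.01) (h : Ok e c) (h' : Ok e c') (hne : c ≠ c')
    {x : ℂ} (h1 : 0 ≤ x.re) (h2 : x.re ≤ 0.01) (h3 : |x.im| ≤ 0.01) (k : ℤ)
    (h4 : 4 * k * e + 2 * e ≤ x.re) (h5 : x.re ≤ 4 * k * e + 2 * e + e / 20) :
    2.02 * e ≤ |‖c - x‖ - ‖c' - x‖| := by
  have r1 := rng h h1 h2 h3
  have r2 := rng h' h1 h2 h3
  have key : 5 * e ≤ |c - c'| * |c + c' - 2 * x.re| := by
    have s := sep he he2 h h' hne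
    obtain ⟨n, a, b, hc⟩ := h
    obtain ⟨m, a', b', hc'⟩ := h'
    have g : 3.9 * e ≤ |8 * n * e + 8 * m * e - 2 * x.re| := by
      rcases le_or_gt (n + m) k with h | h
      · have : (n + m : ℝ) ≤ k := by exact_mod_cast h
        exact le_abs.2 (Or.inr (by nlinarith))
      · have : (k + 1 : ℝ) ≤ n + m := by exact_mod_cast h
        exact le_abs.2 (Or.inl (by nlinarith))
    have q1 : ∀ {u v : ℝ}, 8 * e ≤ u → 1 ≤ v → 5 * e ≤ u * v := fun h1 h2 => by nlinarith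
    have q2 : ∀ {u v : ℝ}, 1.9 ≤ u → 3.9 * e ≤ v → 5 * e ≤ u * v := fun h1 h2 => by nlinarith
    rcases hc with rfl | rfl <;> rcases hc' with rfl | rfl
    · exact q1 s (le_abs.2 (Or.inr (by linarith)))
    · exact q2 (le_abs.2 (Or.inr (by linarith))) (g.trans_eq (by congr 1; ring))
    · exact q2 (le_abs.2 (Or.inl (by linarith))) (g.trans_eq (by congr 1; ring))
    · exact q1 s (le_abs.2 (Or.inl (by linarith)))
  have e1 : |‖c - x‖ - ‖c' - x‖| * (‖c - x‖ + ‖c' - x‖) = |c - c'| * |c + c' - 2 * x.re| := by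
    rw [← abs_mul, ← abs_of_nonneg (by positivity : 0 ≤ ‖c - x‖ + ‖c' - x‖), ← abs_mul]
    congr 1
    linear_combination rsq c x - rsq c' x
  nlinarith [abs_nonneg (‖c - x‖ - ‖c' - x‖)]

lemma high {e c c' : ℝ} (he : 0 < e) (h : Ok e c) (h' : Ok e c')
    {x : ℂ} (h1 : 0 ≤ x.re) (h2 : x.re ≤ 0.01) (h3 : |x.im| ≤ 0.01)
    (h4 : |c + c' - 2 * x.re| ≤ e / 10) : |‖c - x‖ - ‖c' - x‖| ≤ e / 9 := by
  have r1 := rng h h1 h2 h3
  have r2 := rng h' h1 h2 h3
  have e1 : |‖c - x‖ - ‖c' - x‖| * (‖c - x‖ + ‖c' - x‖) = |c - c'| * |c + c' - 2 * x.re| := by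
    rw [← abs_mul, ← abs_of_nonneg (by positivity : 0 ≤ ‖c - x‖ + ‖c' - x‖), ← abs_mul]
    congr 1
    linear_combination rsq c x - rsq c' x
  have h5 : |c - c'| ≤ 2.01 := by
    obtain ⟨n, a, b, hc⟩ := h
    obtain ⟨m, a', b', hc'⟩ := h'
    rcases hc with rfl | rfl <;> rcases hc' with rfl | rfl <;> exact abs_le.2 ⟨by linarith, by linarith⟩
  have := mul_le_mul h5 h4 (abs_nonneg _) (by norm_num)
  nlinarith [abs_nonneg (‖c - x‖ - ‖c' - x‖)]

end Pool.Agent.H.MP_ff3fe0_an
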