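import Pool.Agent.H.MP_ff3fe0_an.A

namespace Pool.Agent.H.MP_ff3fe0_an

open Real MeasureTheory Set Filter Topology
open scoped ContDiff

lemma near {e : ℝ} (he : 0 < e) {w : ℂ} (h : ¬ 2 < ‖e⁻¹ • w‖) : ‖w‖ ≤ 2 * e := by
  rw [norm_smul, norm_inv, Real.norm_eq_abs, abs_of_pos he, not_lt, inv_mul_le_iff₀ he] at h
  linarith

lemma bump_ne {e : ℝ} (he : 0 < e) {c z : ℂ} (h : bump e c z ≠ 0) : ‖z - c‖ ≤ 2 * e :=
  near he fun h1 => h (β_zero (by nlinarith))

lemma bump_fd_ne {e : ℝ} (he : 0 < e) {c z : ℂ} (h : fderiv ℝ (bump e c) z ≠ 0) : ‖z - c‖ ≤ 2 * e :=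
  near he fun h1 => h (by rw [bump_fd, β_fd h1, smul_zero])

lemma far {e c c' : ℝ} (he : 0 < e) (he2 : e ≤ 0.01) (h : Ok e c) (h' : Ok e c') (hne : c ≠ c') {z : ℂ}
    (h1 : ‖z - c‖ ≤ 2 * e) (h2 : ‖z - c'‖ ≤ 2 * e) : False := by
  have h3 := sep he he2 h h' hne
  have h4 : ‖(c : ℂ) - c'‖ ≤ ‖z - c'‖ + ‖z - c‖ := by
    rw [show (c : ℂ) - c' = (z - c') - (z - c) by ring]; exact norm_sub_le _ _
  rw [← Complex.ofReal_sub, Complex.norm_real, Real.norm_eq_abs] at h4
  linarith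

/-- The sum of bumps. -/
noncomputable def F (e : ℝ) (S : Finset ℝ) (z : ℂ) : ℝ := ∑ c ∈ S, bump e c z

/-- A set carrying the sum of bumps. -/
def U (e : ℝ) (S : Finset ℝ) : Set ℂ := ⋃ c ∈ S, Metric.closedBall (c : ℂ) (2 * e)

lemma U_cpt (e : ℝ) (S : Finset ℝ) : IsCompact (U e S) :=
  S.isCompact_biUnion fun _ _ => isCompact_closedBall _ _

lemma U_vol {e : ℝ} (he : 0 < e) (S : Finset ℝ) :
    volume (U e S) ≤ ENNReal.ofReal (S.card * ((2 * e) ^ 2 * π)) := by
  refine (measure_biUnion_finset_le _ _).trans (le_of_eq ?_)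
  simp only [Complex.volume_closedBall, Finset.sum_const, nsmul_eq_mul]
  rw [ENNReal.ofReal_mul (Nat.cast_nonneg _), ENNReal.ofReal_natCast,
    ENNReal.ofReal_mul (p := (2 * e) ^ 2) (by positivity), ENNReal.ofReal_pow (by positivity)]
  congr 2
  exact ENNReal.ofReal_coe_nnreal.symm

lemma F_smooth (e : ℝ) (S : Finset ℝ) : ContDiff ℝ ∞ (F e S) :=
  ContDiff.sum fun c _ => bump_smooth e c

lemma F_fd (e : ℝ) (S : Finset ℝ) (z : ℂ) : fderiv ℝ (F e S) z = ∑ c ∈ S, fderiv ℝ (bump e c) z :=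
  fderiv_fun_sum fun c _ => (bump_smooth e c).differentiable (by simp) z

lemma out {ι E : Type} [AddCommMonoid E] {S : Finset ι} {f : ι → E} (h : ∑ c ∈ S, f c ≠ 0) :
    ∃ c ∈ S, f c ≠ 0 := Finset.exists_ne_zero_of_sum_ne_zero h

lemma F_U {e : ℝ} (he : 0 < e) {S : Finset ℝ} {z : ℂ} (h : z ∉ U e S) :
    F e S z = 0 ∧ fderiv ℝ (F e S) z = 0 := by
  have k : ∀ c ∈ S, ¬ ‖z - c‖ ≤ 2 * e := fun c hc h1 =>
    h (mem_iUnion₂.2 ⟨c, hc, mem_closedBall_iff_norm.2 h1⟩)
  constructor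
  · by_contra h1
    obtain ⟨c, hc, h2⟩ := out h1
    exact k c hc (bump_ne he h2)
  · by_contra h1
    rw [F_fd] at h1
    obtain ⟨c, hc, h2⟩ := out h1
    exact k c hc (bump_fd_ne he h2)

lemma F_cpt {e : ℝ} (he : 0 < e) (S : Finset ℝ) : HasCompactSupport (F e S) :=
  HasCompactSupport.intro (U_cpt e S) fun _ h => (F_U he h).1

lemma F_le {e : ℝ} (he : 0 < e) (he2 : e ≤ 0.01) {S : Finset ℝ} (hS : ∀ c ∈ S, Ok e c) (z : ℂ) :
    ‖F e S z‖ ≤ 1 :=
  one_term S _ zero_le_one (fun c _ => by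
      rw [Real.norm_of_nonneg (bump_nonneg _ _ _)]; exact β_le _) fun c h c' h' hne => by
    by_contra h1
    push Not at h1
    exact far he he2 (hS c h) (hS c' h') hne (bump_ne he h1.1) (bump_ne he h1.2)

lemma F_fd_le {e C : ℝ} (he : 0 < e) (he2 : e ≤ 0.01) {S : Finset ℝ} (hS : ∀ c ∈ S, Ok e c)
    (hC0 : 0 ≤ C) (hC : ∀ z, ‖fderiv ℝ β z‖ ≤ C) (z : ℂ) : ‖fderiv ℝ (F e S) z‖ ≤ e⁻¹ * C := by
  rw [F_fd]
  refine one_term S _ (by positivity) (fun c _ => ?_) fun c h c' h' hne => ?_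
  · rw [bump_fd, norm_smul, norm_inv, Real.norm_of_nonneg he.le]
    exact mul_le_mul_of_nonneg_left (hC _) (by positivity)
  · by_contra h1
    push Not at h1
    exact far he he2 (hS c h) (hS c' h') hne (bump_fd_ne he h1.1) (bump_fd_ne he h1.2)

lemma lp_le {E : Type} [NormedAddCommGroup E] {f : ℂ → E} {K : Set ℂ} {B V p : ℝ} (hB : 0 ≤ B)
    (hV : 0 ≤ V) (hp : 0 < p) (h1 : ∀ z, ‖f z‖ ≤ B) (h2 : ∀ z, z ∉ K → f z = 0)
    (h3 : volume K ≤ ENNReal.ofReal V) :
    eLpNorm f (ENNReal.ofReal p) volume ≤ ENNReal.ofReal (B * V ^ (1 / p)) := by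
  refine (eLpNorm_mono_real (g := K.indicator fun _ => B) fun z => ?_).trans
    ((eLpNorm_indicator_const_le _ _).trans ?_)
  · by_cases hz : z ∈ K
    · rw [indicator_of_mem hz]; exact h1 z
    · rw [indicator_of_notMem hz, h2 z hz, norm_zero]
  · rw [ENNReal.ofReal_mul hB, Real.enorm_eq_ofReal hB, ENNReal.toReal_ofReal hp.le,
      ← ENNReal.ofReal_rpow_of_nonneg hV (by positivity)]
    gcongr

lemma avgF (e : ℝ) (S : Finset ℝ) (x : ℂ) (t : ℝ) :
    circleAverage (fun z => |F e S z|) x t = ∑ c ∈ S, circleAverage (bump e c) x t := by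
  rw [← circleAverage_fun_sum fun (c : ℝ) _ =>
    (bump_smooth e c).continuous.continuousOn.circleIntegrable']
  congr 1
  ext z
  exact abs_of_nonneg (Finset.sum_nonneg fun _ _ => bump_nonneg _ _ _)

lemma avg_nonneg (e : ℝ) (c x : ℂ) (t : ℝ) : 0 ≤ circleAverage (bump e c) x t :=
  circleAverage_nonneg_of_nonneg fun _ _ => bump_nonneg _ _ _

lemma M_low {e : ℝ} (he : 0 < e) (he2 : e ≤ 0.01) {S : Finset ℝ} (hS : ∀ c ∈ S, Ok e c)
    {x : ℂ} (h1 : 0 ≤ x.re) (h2 : x.re ≤ 0.01) (h3 : |x.im| ≤ 0.01) (k : ℤ)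
    (h4 : 4 * k * e + 2 * e ≤ x.re) (h5 : x.re ≤ 4 * k * e + 2 * e + e / 20) :
    ⨆ t : Ioi (0 : ℝ), circleAverage (fun z => |F e S z|) x t ≤ 0.54 * e := by
  refine ciSup_le fun t => ?_
  rw [avgF]
  refine (Real.le_norm_self _).trans (one_term S _ (B := 0.54 * e) (by positivity) (fun c hc => ?_)
    fun c h c' h' hne => ?_)
  · rw [Real.norm_of_nonneg (avg_nonneg _ _ _ _)]
    exact avg_le he he2 t.2 (rng (hS c hc) h1 h2 h3).1
  · have := low he he2 (hS c h) (hS c' h') hne h1 h2 h3 k h4 h5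
    by_cases h6 : 1.01 * e ≤ |‖c - x‖ - t|
    · exact Or.inl (avg_zero he t.2 h6)
    · refine Or.inr (avg_zero he t.2 ?_)
      have h7 := abs_sub_le ‖c - x‖ t ‖c' - x‖
      rw [abs_sub_comm (t : ℝ)] at h7
      linarith

lemma M_high {e : ℝ} (he : 0 < e) (he2 : e ≤ 0.01) {S : Finset ℝ} (hS : ∀ c ∈ S, Ok e c)
    {x : ℂ} (h1 : 0 ≤ x.re) (h2 : x.re ≤ 0.01) (h3 : |x.im| ≤ 0.01) {c c' : ℝ} (hc : c ∈ S)
    (hc' : c' ∈ S) (hne : c ≠ c') (h4 : |c + c' - 2 * x.re| ≤ e / 10) :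
    0.6 * e ≤ ⨆ t : Ioi (0 : ℝ), circleAverage (fun z => |F e S z|) x t := by
  have r1 := rng (hS c hc) h1 h2 h3
  have r2 := rng (hS c' hc') h1 h2 h3
  have h5 := high he (hS c hc) (hS c' hc') h1 h2 h3 h4
  have ht : 0 < ‖c - x‖ := by linarith
  refine le_ciSup_of_le ⟨1, ?_⟩ ⟨‖c - x‖, ht⟩ ?_
  · rintro _ ⟨t, rfl⟩
    exact circleAverage_mono_on_of_le_circle
      (F_smooth e S).continuous.abs.continuousOn.circleIntegrable' fun z _ => F_le he he2 hS z
  · rw [avgF]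
    classical
    have a1 := avg_ge he he2 ht r1.2 (by rw [sub_self, abs_zero]; positivity)
    have a2 := avg_ge he he2 ht r2.2 (by rwa [abs_sub_comm])
    have := Finset.sum_le_sum_of_subset_of_nonneg (s := {c, c'}) (t := S)
      (f := fun d : ℝ => circleAverage (bump e d) x ‖(c : ℂ) - x‖) (by simp [Finset.insert_subset_iff, *])
      fun _ _ _ => avg_nonneg _ _ _ _
    rw [Finset.sum_pair hne] at this
    linarith

noncomputable def η (s : ℝ) : ℝ := smoothTransition (1 - 10000 * s ^ 2)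

lemma η_smooth : ContDiff ℝ ∞ η := smoothTransition.contDiff.comp (by fun_prop)

lemma η_ne {s : ℝ} (h : η s ≠ 0) : |s| ≤ 0.01 := by
  by_contra h1
  refine h (smoothTransition.zero_of_nonpos ?_)
  rw [← sq_abs]
  nlinarith

lemma η_pos : 0 < ∫ s, η s :=
  η_smooth.continuous.integral_pos_of_hasCompactSupport_nonneg_nonzero
    (HasCompactSupport.intro (isCompact_closedBall 0 0.01) fun s hs => by
      by_contra h; exact hs (by simpa using η_ne h)) (fun _ => smoothTransition.nonneg _) (x := 0)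
    (by simp [η])

lemma sT_d (s : ℝ) : HasDerivAt smoothTransition (deriv smoothTransition s) s :=
  ((smoothTransition.contDiff (n := 1)).differentiable (by simp) s).hasDerivAt

lemma sT_ne {s : ℝ} (h : deriv smoothTransition s ≠ 0) : 0 ≤ s ∧ s ≤ 1 := by
  by_contra h1
  apply h
  rcases not_and_or.1 h1 with h2 | h2
  · have : smoothTransition =ᶠ[𝓝 s] fun _ => 0 := eventually_of_mem (Iio_mem_nhds (not_le.1 h2))
      fun w (hw : w < 0) => smoothTransition.zero_of_nonpos hw.le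
    rw [this.deriv_eq]; simp
  · have : smoothTransition =ᶠ[𝓝 s] fun _ => 1 := eventually_of_mem (Ioi_mem_nhds (not_le.1 h2))
      fun w (hw : 1 < w) => smoothTransition.one_of_one_le hw.le
    rw [this.deriv_eq]; simp

lemma sT_c : Continuous (deriv smoothTransition) :=
  (smoothTransition.contDiff (n := 1)).continuous_deriv le_rfl

lemma sT_int : ∫ s, deriv smoothTransition s = 1 := by
  rw [← intervalIntegral.integral_eq_integral_of_support_subset (a := -1) (b := 1)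
    fun s hs => ⟨by linarith [(sT_ne hs).1], (sT_ne hs).2⟩,
    intervalIntegral.integral_eq_sub_of_hasDerivAt (fun s _ => sT_d s) (sT_c.intervalIntegrable _ _),
    smoothTransition.one, smoothTransition.zero_of_nonpos (by norm_num), sub_zero]

/-- Half of a test function. -/
noncomputable def T (e a : ℝ) (x : ℂ) : ℝ := η x.im * smoothTransition ((x.re - a) * (20 / e))

/-- Its horizontal derivative. -/
noncomputable def P (e a : ℝ) (x : ℂ) : ℝ :=
  η x.im * (deriv smoothTransition ((x.re - a) * (20 / e)) * (20 / e))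

lemma T_smooth (e a : ℝ) : ContDiff ℝ ∞ (T e a) :=
  (η_smooth.comp Complex.imCLM.contDiff).mul (smoothTransition.contDiff.comp
    ((Complex.reCLM.contDiff.sub contDiff_const).mul contDiff_const))

lemma T_fd (e a : ℝ) (x : ℂ) : fderiv ℝ (T e a) x 1 = P e a x := by
  have h1 := ((T_smooth e a).differentiable (by simp) x).hasFDerivAt.hasLineDerivAt 1
  have h2 : HasLineDerivAt ℝ (T e a) (P e a x) x 1 := by
    unfold HasLineDerivAt T P
    simp only [Complex.add_im, Complex.add_re, Complex.real_smul, mul_one, Complex.ofReal_im,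
      Complex.ofReal_re, add_zero]
    have := ((sT_d ((x.re + 0 - a) * (20 / e))).comp 0
      ((((hasDerivAt_id (0 : ℝ)).const_add x.re).sub_const a).mul_const (20 / e))).const_mul (η x.im)
    simpa using this
  exact h1.unique h2

lemma P_c (e a : ℝ) : Continuous (P e a) :=
  (η_smooth.continuous.comp Complex.continuous_im).mul ((sT_c.comp (by fun_prop)).mul continuous_const)

lemma P_nonneg {e : ℝ} (he : 0 < e) (a : ℝ) (x : ℂ) : 0 ≤ P e a x :=
  mul_nonneg (smoothTransition.nonneg _) (mul_nonneg (smoothTransition.monotone.deriv_nonneg)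
    (by positivity))

lemma P_ne {e : ℝ} (he : 0 < e) {a : ℝ} {x : ℂ} (h : P e a x ≠ 0) :
    |x.im| ≤ 0.01 ∧ a ≤ x.re ∧ x.re ≤ a + e / 20 := by
  have h1 := sT_ne (left_ne_zero_of_mul (right_ne_zero_of_mul h))
  rw [← mul_div_assoc, le_div_iff₀ he, div_le_one he] at h1
  exact ⟨η_ne (left_ne_zero_of_mul h), by linarith [h1.1], by linarith [h1.2]⟩

lemma box {f : ℂ → ℝ} {a b : ℝ} (h : ∀ x, f x ≠ 0 → |x.im| ≤ 0.01 ∧ a ≤ x.re ∧ x.re ≤ b) :
    HasCompactSupport f :=
  HasCompactSupport.intro (isCompact_closedBall 0 (|a| + |b| + 0.01)) fun x hx => by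
    by_contra h1
    obtain ⟨h2, h3, h4⟩ := h x h1
    refine hx (mem_closedBall_zero_iff.2 ((Complex.norm_le_abs_re_add_abs_im x).trans ?_))
    have : |x.re| ≤ |a| + |b| := abs_le.2
      ⟨by linarith [neg_abs_le a, abs_nonneg b], by linarith [le_abs_self b, abs_nonneg a]⟩
    linarith

lemma P_int {e : ℝ} (he : 0 < e) (a : ℝ) : ∫ x, P e a x = ∫ s, η s := by
  have h := Complex.volume_preserving_equiv_real_prod.integral_comp'
    fun y : ℝ × ℝ => (deriv smoothTransition ((y.1 - a) * (20 / e)) * (20 / e)) * η y.2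
  rw [Measure.volume_eq_prod, integral_prod_mul
    (fun s => deriv smoothTransition ((s - a) * (20 / e)) * (20 / e)) η, integral_mul_const,
    integral_sub_right_eq_self (fun s => deriv smoothTransition (s * (20 / e))),
    Measure.integral_comp_mul_right, sT_int, abs_of_pos (by positivity), smul_eq_mul, mul_one,
    inv_mul_cancel₀ (by positivity), one_mul] at h
  rw [← h]
  congr 1
  ext x
  exact mul_comm _ _

lemma P_cpt {e : ℝ} (he : 0 < e) (a : ℝ) : HasCompactSupport (P e a) := box fun _ h => P_ne he h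

lemma uP {e : ℝ} (he : 0 < e) (a : ℝ) {u : ℂ → ℝ} (hu : LocallyIntegrable u) :
    Integrable fun x => u x * P e a x :=
  hu.integrable_smul_right_of_hasCompactSupport (P_c e a) (P_cpt he a)

lemma jump {e : ℝ} (he : 0 < e) (a : ℝ) {u : ℂ → ℝ} (hu : LocallyIntegrable u)
    (h1 : ∀ x : ℂ, |x.im| ≤ 0.01 → a ≤ x.re → x.re ≤ a + e / 20 → 0.6 * e ≤ u x)
    (h2 : ∀ x : ℂ, |x.im| ≤ 0.01 → a + 2 * e ≤ x.re → x.re ≤ a + 2 * e + e / 20 → u x ≤ 0.54 * e) :
    0.06 * e * ∫ s, η s ≤ ∫ x, u x * fderiv ℝ (fun x => T e a x - T e (a + 2 * e) x) x 1 := by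
  have d := fun a x => (T_smooth e a).differentiable (by simp) x
  have i := fun a (c : ℝ) => uP he a (locallyIntegrable_const c)
  simp only [fderiv_fun_sub (d _ _) (d _ _), sub_apply, T_fd, mul_sub]
  rw [integral_sub (uP he _ hu) (uP he _ hu)]
  have a1 := integral_mono (i a (0.6 * e)) (uP he a hu) fun x => by
    by_cases h : P e a x = 0
    · simp [h]
    · obtain ⟨h3, h4, h5⟩ := P_ne he h
      exact mul_le_mul_of_nonneg_right (h1 x h3 h4 h5) (P_nonneg he _ _)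
  have a2 := integral_mono (uP he (a + 2 * e) hu) (i (a + 2 * e) (0.54 * e)) fun x => by
    by_cases h : P e (a + 2 * e) x = 0
    · simp [h]
    · obtain ⟨h3, h4, h5⟩ := P_ne he h
      exact mul_le_mul_of_nonneg_right (h2 x h3 h4 h5) (P_nonneg he _ _)
  rw [integral_const_mul, P_int he] at a1 a2
  linarith

lemma φ_ne {e : ℝ} (he : 0 < e) {a : ℝ} {x : ℂ} (h : T e a x - T e (a + 2 * e) x ≠ 0) :
    |x.im| ≤ 0.01 ∧ a ≤ x.re ∧ x.re ≤ a + 3 * e := by
  unfold T at h
  rw [← mul_sub] at h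
  refine ⟨η_ne (left_ne_zero_of_mul h), ?_⟩
  have h1 := right_ne_zero_of_mul h
  have h2 : 0 < 20 / e := by positivity
  have h3 : e * (20 / e) = 20 := by field_simp
  by_contra h4
  apply h1
  rcases not_and_or.1 h4 with h5 | h5
  · rw [smoothTransition.zero_of_nonpos (by nlinarith), smoothTransition.zero_of_nonpos (by nlinarith),
      sub_zero]
  · rw [smoothTransition.one_of_one_le (by nlinarith), smoothTransition.one_of_one_le (by nlinarith),
      sub_self]

lemma φ_le (e a : ℝ) (x : ℂ) : ‖T e a x - T e (a + 2 * e) x‖ ≤ 1 := by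
  have h : ∀ a, 0 ≤ T e a x ∧ T e a x ≤ 1 := fun a =>
    ⟨mul_nonneg (smoothTransition.nonneg _) (smoothTransition.nonneg _),
      mul_le_one₀ (smoothTransition.le_one _) (smoothTransition.nonneg _) (smoothTransition.le_one _)⟩
  exact abs_le.2 ⟨by linarith [h a, h (a + 2 * e)], by linarith [h a, h (a + 2 * e)]⟩

end Pool.Agent.H.MP_ff3fe0_an
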